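import Pool.Agent.X143.SD.Stm
open Finset MeasureTheory
namespace Pool.Agent.X98.SD
open Pool.Agent.X143.SD

lemma expb (s : ℝ) : (1 + s) * Real.exp (-s) ≤ 1 := by
  have h := Real.add_one_le_exp s
  have h2 : Real.exp s * Real.exp (-s) = 1 := by rw [← Real.exp_add]; simp
  nlinarith [Real.exp_pos (-s)]

lemma cc_nonneg (s : ℝ) : 0 ≤ cc s := by
  have := expb s; unfold cc; linarith

lemma cc_le_one {s : ℝ} (hs : 0 ≤ s) : cc s ≤ 1 := by
  unfold cc
  have : 0 ≤ (1 + s) * Real.exp (-s) := by positivity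
  linarith

lemma PP_ge {d : ℕ} (hd : 1 ≤ d) {x : ℝ} (hx : 0 ≤ x) : 1 ≤ PP d x := by
  unfold PP
  have h := Finset.single_le_sum (f := fun j => x ^ j) (s := range d) (fun j _ => by positivity) (a := 0) (by simp; omega)
  simpa using h

lemma PP_le {d : ℕ} {x : ℝ} (hx : 0 ≤ x) (hx1 : x ≤ 1) : PP d x ≤ d := by
  unfold PP
  calc ∑ j ∈ range d, x ^ j ≤ ∑ j ∈ range d, (1:ℝ) := Finset.sum_le_sum (fun j _ => pow_le_one₀ hx hx1)
    _ = d := by simp

lemma pow_lip (j : ℕ) {x y : ℝ} (hx : 0 ≤ x) (hx1 : x ≤ 1) (hy : 0 ≤ y) (hy1 : y ≤ 1) : |x ^ j - y ^ j| ≤ j * |x - y| := by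
  induction j with
  | zero => simp
  | succ j ih =>
    have e : x ^ (j+1) - y ^ (j+1) = x * (x ^ j - y ^ j) + (x - y) * y ^ j := by ring
    rw [e]
    calc |x * (x ^ j - y ^ j) + (x - y) * y ^ j| ≤ |x * (x ^ j - y ^ j)| + |(x - y) * y ^ j| := abs_add_le _ _
      _ = x * |x ^ j - y ^ j| + |x - y| * y ^ j := by
        rw [abs_mul, abs_mul, abs_of_nonneg hx, abs_of_nonneg (pow_nonneg hy j)]
      _ ≤ 1 * (j * |x - y|) + |x - y| * 1 := by
        have h1 : y ^ j ≤ 1 := pow_le_one₀ hy hy1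
        have h2 := abs_nonneg (x - y)
        have h3 := abs_nonneg (x ^ j - y ^ j)
        nlinarith
      _ = ((j + 1 : ℕ) : ℝ) * |x - y| := by push_cast; ring

lemma PP_lip (d : ℕ) {x y : ℝ} (hx : 0 ≤ x) (hx1 : x ≤ 1) (hy : 0 ≤ y) (hy1 : y ≤ 1) :
    |PP d x - PP d y| ≤ d ^ 2 * |x - y| := by
  unfold PP
  rw [← Finset.sum_sub_distrib]
  calc |∑ j ∈ range d, (x ^ j - y ^ j)| ≤ ∑ j ∈ range d, |x ^ j - y ^ j| := Finset.abs_sum_le_sum_abs _ _
    _ ≤ ∑ j ∈ range d, (d:ℝ) * |x - y| := by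
      apply Finset.sum_le_sum
      intro j hj
      have hj' : (j:ℝ) ≤ d := by
        have := Finset.mem_range.mp hj
        exact_mod_cast this.le
      exact (pow_lip j hx hx1 hy hy1).trans (mul_le_mul_of_nonneg_right hj' (abs_nonneg _))
    _ = d ^ 2 * |x - y| := by simp; ring

lemma exp_neg_le {x : ℝ} (hx : 0 ≤ x) : 1 - Real.exp (-x) ≤ x := by
  have := Real.add_one_le_exp (-x); linarith

lemma cc_diff {u x : ℝ} (hu : 0 ≤ u) (hx : 0 ≤ x) : 0 ≤ cc (u + x) - cc u ∧ cc (u + x) - cc u ≤ x := by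
  have e : cc (u + x) - cc u = Real.exp (-u) * ((1 + u) * (1 - Real.exp (-x)) - x * Real.exp (-x)) := by
    unfold cc
    have : Real.exp (-(u+x)) = Real.exp (-u) * Real.exp (-x) := by rw [← Real.exp_add]; congr 1; ring
    rw [this]; ring
  rw [e]
  have h1 := expb u
  have h2 := expb x
  have h3 := exp_neg_le hx
  have h4 : 0 ≤ 1 - Real.exp (-x) := by
    have : Real.exp (-x) ≤ 1 := Real.exp_le_one_iff.mpr (by linarith)
    linarith
  have h5 := Real.exp_pos (-u)
  have h6 := Real.exp_pos (-x)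
  constructor
  · apply mul_nonneg h5.le
    nlinarith
  · have k1 : (1 + u) * (1 - Real.exp (-x)) - x * Real.exp (-x) ≤ (1 + u) * x := by nlinarith
    calc Real.exp (-u) * ((1 + u) * (1 - Real.exp (-x)) - x * Real.exp (-x)) ≤ Real.exp (-u) * ((1 + u) * x) :=
          mul_le_mul_of_nonneg_left k1 h5.le
      _ = ((1 + u) * Real.exp (-u)) * x := by ring
      _ ≤ 1 * x := mul_le_mul_of_nonneg_right h1 hx
      _ = x := one_mul x

noncomputable def f (d : ℕ) (s : ℝ) : ℝ := 1 / PP d (cc s)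

lemma f_cont {d : ℕ} (hd : 1 ≤ d) : Continuous (f d) := by
  unfold f
  apply Continuous.div continuous_const
  · unfold PP cc
    fun_prop
  · intro s
    have := PP_ge hd (cc_nonneg s)
    linarith

lemma f_ge {d : ℕ} (hd : 1 ≤ d) {s : ℝ} (hs : 0 ≤ s) : 1 / (d:ℝ) ≤ f d s := by
  unfold f
  have h1 := PP_ge hd (cc_nonneg s)
  have h2 := PP_le (d := d) (cc_nonneg s) (cc_le_one hs)
  exact one_div_le_one_div_of_le (by linarith) h2

lemma f_lip {d : ℕ} (hd : 1 ≤ d) {u s : ℝ} (hu : 0 ≤ u) (hs : u ≤ s) : |f d s - f d u| ≤ d ^ 2 * (s - u) := by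
  unfold f
  have h1 := PP_ge hd (cc_nonneg s)
  have h2 := PP_ge hd (cc_nonneg u)
  have h3 := PP_lip d (cc_nonneg u) (cc_le_one hu) (cc_nonneg s) (cc_le_one (hu.trans hs))
  have h4 := cc_diff hu (sub_nonneg.mpr hs)
  rw [add_sub_cancel] at h4
  have e : 1 / PP d (cc s) - 1 / PP d (cc u) = (PP d (cc u) - PP d (cc s)) / (PP d (cc s) * PP d (cc u)) := by
    have n1 : PP d (cc s) ≠ 0 := by linarith
    have n2 : PP d (cc u) ≠ 0 := by linarith
    field_simp
  rw [e, abs_div]
  have h5 : 1 ≤ |PP d (cc s) * PP d (cc u)| := by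
    rw [abs_of_pos (by positivity)]; nlinarith
  calc |PP d (cc u) - PP d (cc s)| / |PP d (cc s) * PP d (cc u)| ≤ |PP d (cc u) - PP d (cc s)| :=
        div_le_self (abs_nonneg _) h5
    _ ≤ d ^ 2 * |cc u - cc s| := h3
    _ ≤ d ^ 2 * (s - u) := by
      apply mul_le_mul_of_nonneg_left _ (by positivity)
      rw [abs_sub_comm, abs_of_nonneg h4.1]; exact h4.2

lemma TT_sub {d : ℕ} (hd : 1 ≤ d) (a b : ℝ) : TT d b - TT d a = ∫ s in a..b, f d s := by
  unfold TT
  have hi : ∀ x y : ℝ, IntervalIntegrable (f d) volume x y := fun x y => (f_cont hd).intervalIntegrable x y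
  have := intervalIntegral.integral_interval_sub_left (hi 0 b) (hi 0 a)
  simpa [f] using this

lemma TT_low {d : ℕ} (hd : 1 ≤ d) {a b : ℝ} (ha : 0 ≤ a) (hab : a ≤ b) : (b - a) / d ≤ TT d b - TT d a := by
  rw [TT_sub hd]
  have h1 : ∫ s in a..b, (1 / (d:ℝ)) ≤ ∫ s in a..b, f d s := by
    apply intervalIntegral.integral_mono_on hab
    · exact continuous_const.intervalIntegrable _ _
    · exact (f_cont hd).intervalIntegrable _ _
    · intro s hs; exact f_ge hd (ha.trans hs.1)
  rw [intervalIntegral.integral_const] at h1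
  calc (b - a) / d = (b - a) • (1 / (d:ℝ)) := by simp [smul_eq_mul, div_eq_mul_inv]
    _ ≤ _ := h1

lemma TT_cont {d : ℕ} (hd : 1 ≤ d) : Continuous (TT d) := by
  have h : TT d = fun b => ∫ s in (0:ℝ)..b, f d s := by funext b; rfl
  rw [h]
  exact intervalIntegral.continuous_primitive (fun x y => (f_cont hd).intervalIntegrable x y) 0

lemma TT_zero (d : ℕ) : TT d 0 = 0 := by simp [TT]

lemma exists_u {d : ℕ} (hd : 1 ≤ d) {t : ℝ} (ht : 0 ≤ t) : ∃ u, 0 ≤ u ∧ TT d u = t := by
  have hd0 : (0:ℝ) < d := by exact_mod_cast hd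
  have h1 := intermediate_value_Icc (f := TT d) (a := 0) (b := d * t) (by positivity) (TT_cont hd).continuousOn
  have h2 := TT_low hd le_rfl (b := d * t) (by positivity)
  rw [TT_zero] at h1 h2
  have h3 : t ≤ TT d (d * t) := by
    have : (d * t - 0) / d = t := by field_simp; ring
    linarith
  obtain ⟨u, hu, hu2⟩ := h1 ⟨ht, h3⟩
  exact ⟨u, hu.1, hu2⟩

lemma exp2 {x : ℝ} (hx : 0 ≤ x) : |Real.exp (-x) - 1 + x| ≤ x ^ 2 := by
  have h1 := Real.add_one_le_exp (-x)
  have h2 := Real.add_one_le_exp x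
  have h3 : Real.exp x * Real.exp (-x) = 1 := by rw [← Real.exp_add]; simp
  have h4 := Real.exp_pos (-x)
  rw [abs_of_nonneg (by linarith)]
  -- exp(-x) ≤ 1 - x + x^2 , from exp(-x) ≤ 1/(1+x)
  have h5 : (1 + x) * Real.exp (-x) ≤ 1 := expb x
  have h6 : (1 + x) * (1 - x + x ^ 2) = 1 + x ^ 3 := by ring
  have h7 : (1 + x) * Real.exp (-x) ≤ (1 + x) * (1 - x + x ^ 2) := by
    rw [h6]; have : 0 ≤ x ^ 3 := by positivity
    linarith
  have h8 := le_of_mul_le_mul_left h7 (by linarith)
  linarith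

theorem t_ODE : S_ODE := by
  intro d hd
  have hd0 : (0:ℝ) < d := by exact_mod_cast hd
  have hd1 : (1:ℝ) ≤ d := by exact_mod_cast hd
  classical
  let u : ℝ → ℝ := fun t => if h : 0 ≤ t then Classical.choose (exists_u hd h) else 0
  have hu : ∀ t, 0 ≤ t → 0 ≤ u t ∧ TT d (u t) = t := by
    intro t ht
    simp only [u, ht, dif_pos]
    exact Classical.choose_spec (exists_u hd ht)
  clear_value u
  have hmono : ∀ t t', 0 ≤ t → t ≤ t' → u t ≤ u t' ∧ u t' - u t ≤ d * (t' - t) := by
    intro t t' ht htt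
    have h1 := hu t ht
    have h2 := hu t' (ht.trans htt)
    have hm : u t ≤ u t' := by
      by_contra hcon
      push Not at hcon
      have h3 := TT_low hd h2.1 hcon.le
      rw [h1.2, h2.2] at h3
      have h4 : 0 < (u t - u t') / d := div_pos (by linarith) hd0
      linarith
    refine ⟨hm, ?_⟩
    have h3 := TT_low hd h1.1 hm
    rw [h1.2, h2.2, div_le_iff₀ hd0] at h3
    linarith
  have hcont : ContinuousOn u (Set.Ici 0) := by
    have : LipschitzOnWith (d : NNReal) u (Set.Ici 0) := by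
      apply LipschitzOnWith.of_dist_le_mul
      intro x hx y hy
      rw [Real.dist_eq, Real.dist_eq]
      rcases le_total x y with h | h
      · have := hmono x y hx h
        rw [abs_sub_comm, abs_of_nonneg (by linarith), abs_sub_comm, abs_of_nonneg (by linarith)]
        simpa using this.2
      · have := hmono y x hy h
        rw [abs_of_nonneg (by linarith), abs_of_nonneg (by linarith)]
        simpa using this.2
    exact this.continuousOn
  refine ⟨u, hcont, hu, 2 * d ^ 2 + d ^ 5, by positivity, ?_⟩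
  intro n hn
  have hn0 : (0:ℝ) < n := by exact_mod_cast hn
  have hu0 : u 0 = 0 := by
    have h1 := hu 0 le_rfl
    have h2 := TT_low hd le_rfl h1.1
    rw [h1.2, TT_zero, div_le_iff₀ hd0] at h2
    linarith [h1.1]
  have hcc : ∀ v : ℝ, 1 - Real.exp (-v) - v * Real.exp (-v) = cc v := by
    intro v; unfold cc; ring
  refine ⟨by simp [hu0], by simp [hu0], ?_, ?_⟩
  · intro i _
    have h := (hu ((i:ℝ)/n) (by positivity)).1
    refine ⟨(Real.exp_pos _).le, mul_nonneg h (Real.exp_pos _).le, ?_⟩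
    have := expb (u ((i:ℝ)/n))
    nlinarith
  · intro i _
    simp only [hcc]
    set t := (i:ℝ)/n with ht
    have ht' : (((i+1 : ℕ)):ℝ)/n = t + 1/n := by rw [ht]; push_cast; ring
    rw [ht']
    have ht0 : 0 ≤ t := by positivity
    have hh : (0:ℝ) < 1/n := by positivity
    have hm := hmono t (t + 1/n) ht0 (by linarith)
    have hv := hu t ht0
    have hv' := hu (t + 1/n) (by linarith)
    set v := u t
    set x := u (t + 1/n) - v with hx
    have hx0 : 0 ≤ x := by linarith [hm.1]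
    have hxd : x ≤ d * (1/n) := by have := hm.2; linarith
    have ev : u (t + 1/n) = v + x := by rw [hx]; ring
    rw [ev]
    -- |1/n - f v * x| ≤ d^2 x^2
    have hint : 1/(n:ℝ) = ∫ s in v..(v+x), f d s := by
      rw [← TT_sub hd, ← ev, hv'.2, hv.2]; ring
    have hconst : f d v * x = ∫ s in v..(v+x), f d v := by
      rw [intervalIntegral.integral_const]; simp [mul_comm]
    have herr : |1/(n:ℝ) - f d v * x| ≤ d ^ 2 * x * x := by
      rw [hint, hconst, ← intervalIntegral.integral_sub ((f_cont hd).intervalIntegrable _ _) (continuous_const.intervalIntegrable _ _)]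
      have := intervalIntegral.norm_integral_le_of_norm_le_const (a := v) (b := v + x) (f := fun s => f d s - f d v)
        (C := d ^ 2 * x) (by
          intro s hs
          rw [Set.uIoc_of_le (by linarith)] at hs
          rw [Real.norm_eq_abs]
          refine (f_lip hd hv.1 hs.1.le).trans ?_
          apply mul_le_mul_of_nonneg_left _ (by positivity)
          linarith [hs.2])
      rw [Real.norm_eq_abs, add_sub_cancel_left, abs_of_nonneg hx0] at this
      exact this
    set P := PP d (cc v) with hP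
    have hP1 : 1 ≤ P := PP_ge hd (cc_nonneg v)
    have hP2 : P ≤ d := PP_le (cc_nonneg v) (cc_le_one hv.1)
    have hfv : f d v * P = 1 := by
      unfold f; rw [← hP]; field_simp
    have hxP : |x - P * (1/n)| ≤ d ^ 3 * x ^ 2 := by
      have e : x - P * (1/n) = - (P * (1/n - f d v * x)) := by
        linear_combination (-x) * hfv
      rw [e, abs_neg, abs_mul, abs_of_pos (by linarith)]
      calc P * |1/(n:ℝ) - f d v * x| ≤ d * (d ^ 2 * x * x) :=
            mul_le_mul hP2 herr (abs_nonneg _) (by linarith)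
        _ = d ^ 3 * x ^ 2 := by ring
    have hx2 : x ^ 2 ≤ d ^ 2 * (1/(n:ℝ)) ^ 2 := by
      rw [← mul_pow]
      exact pow_le_pow_left₀ hx0 hxd 2
    have hE := Real.exp_pos (-v)
    have hE1 : Real.exp (-v) ≤ 1 := Real.exp_le_one_iff.mpr (by linarith [hv.1])
    have hsplit : Real.exp (-(v+x)) = Real.exp (-v) * Real.exp (-x) := by rw [← Real.exp_add]; congr 1; ring
    have h2 := exp2 hx0
    have h3 : |Real.exp (-x) - 1| ≤ x := by
      have : Real.exp (-x) ≤ 1 := Real.exp_le_one_iff.mpr (by linarith)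
      rw [abs_of_nonpos (by linarith)]
      have := exp_neg_le hx0; linarith
    have hbound : ∀ q : ℝ, q ≤ 2 * x ^ 2 + d ^ 3 * x ^ 2 → q ≤ (2 * d ^ 2 + d ^ 5) / (n:ℝ) ^ 2 := by
      intro q hq
      have e : (2 * (d:ℝ) ^ 2 + d ^ 5) / (n:ℝ) ^ 2 = (2 + d ^ 3) * (d ^ 2 * (1/(n:ℝ)) ^ 2) := by
        field_simp
      rw [e]
      have : (0:ℝ) ≤ 2 + d ^ 3 := by positivity
      nlinarith [mul_le_mul_of_nonneg_left hx2 this]
    constructor
    · apply hbound
      rw [hsplit]
      have e : Real.exp (-v) * Real.exp (-x) - (Real.exp (-v) - Real.exp (-v) * P / n)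
          = Real.exp (-v) * (Real.exp (-x) - 1 + x) - Real.exp (-v) * (x - P * (1/n)) := by ring
      rw [e]
      calc |Real.exp (-v) * (Real.exp (-x) - 1 + x) - Real.exp (-v) * (x - P * (1/n))|
          ≤ |Real.exp (-v) * (Real.exp (-x) - 1 + x)| + |Real.exp (-v) * (x - P * (1/n))| := abs_sub _ _
        _ = Real.exp (-v) * |Real.exp (-x) - 1 + x| + Real.exp (-v) * |x - P * (1/n)| := by
          rw [abs_mul, abs_mul, abs_of_pos hE]
        _ ≤ 1 * x ^ 2 + 1 * (d ^ 3 * x ^ 2) := by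
          apply add_le_add
          · exact mul_le_mul hE1 h2 (abs_nonneg _) zero_le_one
          · exact mul_le_mul hE1 hxP (abs_nonneg _) zero_le_one
        _ ≤ 2 * x ^ 2 + d ^ 3 * x ^ 2 := by nlinarith [sq_nonneg x]
    · apply hbound
      rw [hsplit]
      have e : (v + x) * (Real.exp (-v) * Real.exp (-x)) - (v * Real.exp (-v) + (Real.exp (-v) - v * Real.exp (-v)) * P / n)
          = (v * Real.exp (-v)) * (Real.exp (-x) - 1 + x) + Real.exp (-v) * (x * (Real.exp (-x) - 1))
            + ((1 - v) * Real.exp (-v)) * (x - P * (1/n)) := by ring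
      rw [e]
      have hvE : 0 ≤ v * Real.exp (-v) := mul_nonneg hv.1 hE.le
      have hvE1 : v * Real.exp (-v) ≤ 1 := by
        have := expb v; nlinarith
      have hw : |(1 - v) * Real.exp (-v)| ≤ 1 := by
        rw [abs_le]; constructor <;> nlinarith
      calc |(v * Real.exp (-v)) * (Real.exp (-x) - 1 + x) + Real.exp (-v) * (x * (Real.exp (-x) - 1))
            + ((1 - v) * Real.exp (-v)) * (x - P * (1/n))|
          ≤ |(v * Real.exp (-v)) * (Real.exp (-x) - 1 + x)| + |Real.exp (-v) * (x * (Real.exp (-x) - 1))|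
            + |((1 - v) * Real.exp (-v)) * (x - P * (1/n))| := by
            refine (abs_add_le _ _).trans ?_
            exact add_le_add (abs_add_le _ _) le_rfl
        _ = (v * Real.exp (-v)) * |Real.exp (-x) - 1 + x| + Real.exp (-v) * (x * |Real.exp (-x) - 1|)
            + |(1 - v) * Real.exp (-v)| * |x - P * (1/n)| := by
            rw [abs_mul, abs_mul (Real.exp (-v)), abs_mul x, abs_mul ((1-v) * Real.exp (-v)), abs_of_nonneg hvE,
              abs_of_pos hE, abs_of_nonneg hx0]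
        _ ≤ 1 * x ^ 2 + 1 * (x * x) + 1 * (d ^ 3 * x ^ 2) := by
          apply add_le_add
          · apply add_le_add
            · exact mul_le_mul hvE1 h2 (abs_nonneg _) zero_le_one
            · exact mul_le_mul hE1 (mul_le_mul_of_nonneg_left h3 hx0) (by positivity) zero_le_one
          · exact mul_le_mul hw hxP (abs_nonneg _) zero_le_one
        _ = 2 * x ^ 2 + d ^ 3 * x ^ 2 := by ring

end Pool.Agent.X98.SD
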